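import Pool.Agent.H3.OT.Gap
import Pool.Graph.R_seed8.Y996.OT.MinP
import Pool.Graph.R_seed8.Y996.OT.RandP

/-!
Assembly: ordered graphs whose minimum degree exceeds `(1 - 1/r) n` by `s` and whose
`KR r T`-tilings all miss at least `r s` vertices.
-/

set_option autoImplicit false

namespace Pool.Agent.H3.OT

open Pool.Agent.H730R4 Pool.Agent.Y996.OT Filter

/-- The construction. -/
theorem construct (k T b : ℕ) (hk : 2 ≤ k) (hT : 2 ≤ T) (hb : 128 * (k + 1) ≤ b) :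
    ∃ (n s : ℕ) (G : SimpleGraph (Fin n)), b ^ (T - 1) ≤ 256 * ((k + 1) * s) ∧
      b ≤ 128 * n ∧ n ≤ (k + 1) * b ^ (T + 1) ∧
      (∀ v, k * n + (k + 1) * s ≤ (k + 1) * (G.neighborSet v).ncard) ∧
      ∀ P : Set (Fin ((k + 1) * T) → Fin n), IsTiling (KR (k + 1) T) G P →
        (k + 1) * s ≤ ((covered P)ᶜ).ncard := by
  obtain ⟨D, hD⟩ : ∃ D, b ^ (T - 1) / 64 = D := ⟨_, rfl⟩
  have hb1 : 1 ≤ b := by omega
  have hbT : b ≤ b ^ (T - 1) := by
    calc b = b ^ 1 := (pow_one b).symm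
      _ ≤ b ^ (T - 1) := Nat.pow_le_pow_right hb1 (by omega)
  have hD2 : 2 * (k + 1) ≤ D := by
    rw [← hD]
    exact (Nat.le_div_iff_mul_le (by norm_num)).2 (by omega)
  have hD3 : b ^ (T - 1) ≤ 128 * D := by
    have h8 := Nat.lt_div_mul_add (a := b ^ (T - 1)) (b := 64) (by norm_num)
    rw [hD] at h8
    omega
  have hm : b ^ (T + 1) = b ^ 2 * b ^ (T - 1) := by
    rw [← pow_add]
    congr 1
    omega
  have hm2 : 2 ≤ b ^ (T + 1) := by
    calc 2 ≤ b := by omega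
      _ = b ^ 1 := (pow_one b).symm
      _ ≤ b ^ (T + 1) := Nat.pow_le_pow_right hb1 (by omega)
  obtain ⟨F, hF, he⟩ := rand T (8 * b ^ 2) (b ^ (T + 1)) hT (by nlinarith) hm2 (by
    rw [mul_pow, ← pow_mul, ← pow_mul, mul_comm (T + 1) 2]
    apply Nat.mul_le_mul_right
    calc 8 = 8 ^ 1 := (pow_one 8).symm
      _ ≤ 8 ^ (T + 1) := Nat.pow_le_pow_right (by norm_num) (by omega))
  have hDe : D * b ^ (T + 1) ≤ F.edgeSet.ncard := by
    have h1 : 64 * D ≤ b ^ (T - 1) := by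
      rw [← hD, mul_comm]
      exact Nat.div_mul_le_self _ _
    have h2 : (b ^ 2 * 64) * (D * b ^ (T + 1)) ≤ (b ^ 2 * 64) * F.edgeSet.ncard := by
      calc (b ^ 2 * 64) * (D * b ^ (T + 1)) = (b ^ 2 * (64 * D)) * b ^ (T + 1) := by ring
        _ ≤ (b ^ 2 * b ^ (T - 1)) * b ^ (T + 1) :=
          Nat.mul_le_mul_right _ (Nat.mul_le_mul_left _ h1)
        _ = (b ^ (T + 1)) ^ 2 := by rw [← hm, sq]
        _ ≤ 8 * (8 * b ^ 2) * F.edgeSet.ncard := he
        _ = (b ^ 2 * 64) * F.edgeSet.ncard := by ring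
    exact Nat.le_of_mul_le_mul_left h2 (by positivity)
  obtain ⟨m, F', f, hm1, hmm, hf, hadj, hdeg⟩ := mind (b ^ (T + 1)) D F (by omega) (by omega) hDe
  have hF' : KFree T F' := by
    intro x y hx hy h
    exact hF (fun i => f (x i)) (fun j => f (y j)) (hf.comp hx) (hf.comp hy)
      (fun i j => hadj _ _ (h i j))
  have hDm : D ≤ m := by
    have h1 := hdeg ⟨0, hm1⟩
    have h2 := Set.ncard_le_ncard (Set.subset_univ (F'.neighborSet ⟨0, hm1⟩)) (Set.toFinite _)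
    rw [Set.ncard_univ, Nat.card_eq_fintype_card, Fintype.card_fin] at h2
    omega
  obtain ⟨s, hs⟩ : ∃ s, D / (k + 1) = s := ⟨_, rfl⟩
  have hs1 : (k + 1) * s ≤ D := by
    rw [← hs]
    exact Nat.mul_div_le _ _
  have hs2 : D < (k + 1) * s + (k + 1) := by
    have := Nat.lt_div_mul_add (a := D) (b := k + 1) (by omega)
    rw [hs, mul_comm] at this
    exact this
  obtain ⟨a, ha⟩ : ∃ a : ℕ, a + (k + 1) * s = m := ⟨m - (k + 1) * s, by omega⟩
  have hn : k * a + m = (k + 1) * a + (k + 1) * s := by rw [← ha]; ring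
  have hkm : k * a ≤ k * b ^ (T + 1) := Nat.mul_le_mul_left k (by omega)
  have hkm2 : (k + 1) * b ^ (T + 1) = k * b ^ (T + 1) + b ^ (T + 1) := by ring
  refine ⟨k * a + m, s, bigR k a m F', by omega, ?_, by omega, ?_, ?_⟩
  · have : b ≤ 128 * m := by omega
    have h0 : m ≤ k * a + m := Nat.le_add_left _ _
    omega
  · intro v
    rcases Nat.lt_or_ge (v : ℕ) (k * a) with hv | hv
    · have h := bigR_deg_low (F := F') v hv
      have h2 : (k + 1) * (k * a + m) ≤ (k + 1) * (((bigR k a m F').neighborSet v).ncard + a) :=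
        Nat.mul_le_mul_left _ h
      nlinarith
    · have hvlt := v.isLt
      have h := bigR_deg_high (F := F') v ⟨(v : ℕ) - k * a, by omega⟩ (by simp only; omega)
      have h1 := hdeg ⟨(v : ℕ) - k * a, by omega⟩
      have h3 : k * a + (k + 1) * s ≤ ((bigR k a m F').neighborSet v).ncard := by omega
      have h2 : (k + 1) * (k * a + (k + 1) * s) ≤
          (k + 1) * ((bigR k a m F').neighborSet v).ncard := Nat.mul_le_mul_left _ h3
      have h5 : k * (k * a + m) + (k + 1) * s = (k + 1) * (k * a + (k + 1) * s) := by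
        rw [hn]
        ring
      rw [h5]
      exact h2
  · intro P hP
    have h := gap hk (by omega) F' hF' P hP
    omega

theorem power (k T : ℕ) (hk : 2 ≤ k) (hT : 2 ≤ T) (N : ℕ) :
    ∃ (n : ℕ) (_ : N ≤ n) (G : SimpleGraph (Fin n)),
      (∀ v, (1 - 1 / ((k + 1 : ℕ) : ℝ)) * (n : ℝ) +
          (n : ℝ) ^ (1 - 2 / ((T : ℝ) + 1)) / (256 * ((k + 1 : ℕ) : ℝ) ^ 2) ≤
            ((G.neighborSet v).ncard : ℝ)) ∧
      ∀ P : Set (Fin ((k + 1) * T) → Fin n), IsTiling (KR (k + 1) T) G P →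
        (n : ℝ) ^ (1 - 2 / ((T : ℝ) + 1)) / (256 * ((k + 1 : ℕ) : ℝ)) ≤
          (((covered P)ᶜ).ncard : ℝ) := by
  obtain ⟨b, hb⟩ : ∃ b : ℕ, b = 128 * (N + 1) * (k + 1) := ⟨_, rfl⟩
  have hbk : 128 * (k + 1) ≤ b := by
    rw [hb]
    exact Nat.mul_le_mul_right _ (by omega)
  have hbN : 128 * (N + 1) ≤ b := by
    rw [hb]
    exact Nat.le_mul_of_pos_right _ (by omega)
  obtain ⟨n, s, G, hs, hbn, hn, hdeg, hP⟩ := construct k T b hk hT hbk
  have hb1 : 1 ≤ b := by omega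
  have hTpos : (0 : ℝ) < (T : ℝ) + 1 := by positivity
  have hT2 : (2 : ℝ) ≤ T := by exact_mod_cast hT
  obtain ⟨al, hal⟩ : ∃ al : ℝ, al = 1 - 2 / ((T : ℝ) + 1) := ⟨_, rfl⟩
  rw [← hal]
  have hal0 : 0 ≤ al := by
    rw [hal, sub_nonneg, div_le_one hTpos]
    linarith
  have hal1 : al ≤ 1 := by
    rw [hal]
    have : 0 ≤ 2 / ((T : ℝ) + 1) := by positivity
    linarith
  have hbR : (1 : ℝ) ≤ b := by exact_mod_cast hb1
  have hexp : ((T : ℝ) + 1) * al = (T : ℝ) - 1 := by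
    rw [hal]
    field_simp
    ring
  obtain ⟨r, hr⟩ : ∃ r : ℝ, r = ((k + 1 : ℕ) : ℝ) := ⟨_, rfl⟩
  have hrk : r = (k : ℝ) + 1 := by rw [hr]; push_cast; ring
  have hr1 : (1 : ℝ) ≤ r := by
    rw [hr]
    exact_mod_cast (by omega : 1 ≤ k + 1)
  have hr0 : (0 : ℝ) < r := by linarith
  have h2 : (n : ℝ) ^ al ≤ r * (b : ℝ) ^ (T - 1) := by
    have h3 : (n : ℝ) ≤ r * (b : ℝ) ^ (T + 1) := by
      rw [hr]
      exact_mod_cast hn
    calc (n : ℝ) ^ al ≤ (r * (b : ℝ) ^ (T + 1)) ^ al :=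
          Real.rpow_le_rpow (Nat.cast_nonneg _) h3 hal0
      _ = r ^ al * ((b : ℝ) ^ (T + 1)) ^ al :=
          Real.mul_rpow hr0.le (by positivity)
      _ ≤ r * (b : ℝ) ^ (T - 1) := by
          have h4 : r ^ al ≤ r := by
            calc r ^ al ≤ r ^ (1 : ℝ) := Real.rpow_le_rpow_of_exponent_le hr1 hal1
              _ = r := Real.rpow_one r
          have h5 : ((b : ℝ) ^ (T + 1)) ^ al = (b : ℝ) ^ (T - 1) := by
            rw [← Real.rpow_natCast, ← Real.rpow_mul (by positivity), ← Real.rpow_natCast]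
            congr 1
            push_cast
            rw [hexp, Nat.cast_sub (by omega)]
            simp
          rw [h5]
          exact mul_le_mul_of_nonneg_right h4 (by positivity)
  have h6 : (b : ℝ) ^ (T - 1) ≤ 256 * (r * s) := by
    rw [hr]
    exact_mod_cast hs
  have h7 : (n : ℝ) ^ al ≤ 256 * r ^ 2 * s := by
    calc (n : ℝ) ^ al ≤ r * (b : ℝ) ^ (T - 1) := h2
      _ ≤ r * (256 * (r * s)) := mul_le_mul_of_nonneg_left h6 hr0.le
      _ = 256 * r ^ 2 * s := by ring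
  refine ⟨n, by omega, G, ?_, ?_⟩
  · intro v
    rw [← hr]
    have h8 : (n : ℝ) ^ al / (256 * r ^ 2) ≤ s := by
      rw [div_le_iff₀ (by positivity)]
      linarith
    have h9 : (k : ℝ) * n + r * s ≤ r * ((G.neighborSet v).ncard : ℝ) := by
      rw [hr]
      exact_mod_cast hdeg v
    have h10 : r * ((1 - 1 / r) * (n : ℝ) + s) = (k : ℝ) * n + r * s := by
      rw [hrk] at hr0 ⊢
      field_simp
      ring
    have h11 : r * ((1 - 1 / r) * (n : ℝ) + s) ≤ r * ((G.neighborSet v).ncard : ℝ) := by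
      rw [h10]
      exact h9
    have h12 := le_of_mul_le_mul_left h11 hr0
    linarith
  · intro P hPt
    rw [← hr]
    have h1 : r * (s : ℝ) ≤ (((covered P)ᶜ).ncard : ℝ) := by
      rw [hr]
      exact_mod_cast hP P hPt
    refine le_trans ?_ h1
    rw [div_le_iff₀ (by positivity)]
    calc (n : ℝ) ^ al ≤ 256 * r ^ 2 * s := h7
      _ = r * s * (256 * r) := by ring

theorem nearly (k : ℕ) (hk : 2 ≤ k) (ε : ℝ) (hε : 0 < ε) :
    ∃ T : ℕ, 2 ≤ T ∧ ∀ N : ℕ, ∃ (n : ℕ) (_ : N ≤ n) (G : SimpleGraph (Fin n)),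
      (∀ v, (1 - 1 / ((k + 1 : ℕ) : ℝ)) * (n : ℝ) + (n : ℝ) ^ (1 - ε) ≤
            ((G.neighborSet v).ncard : ℝ)) ∧
      ∀ P : Set (Fin ((k + 1) * T) → Fin n), IsTiling (KR (k + 1) T) G P →
        (n : ℝ) ^ (1 - ε) ≤ (((covered P)ᶜ).ncard : ℝ) := by
  obtain ⟨T0, hT0⟩ := exists_nat_gt (4 / ε)
  obtain ⟨T, hT⟩ : ∃ T, T = T0 + 2 := ⟨_, rfl⟩
  have hTR : (T : ℝ) = (T0 : ℝ) + 2 := by rw [hT]; push_cast; ring
  have hT1 : 2 / ((T : ℝ) + 1) ≤ ε / 2 := by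
    rw [div_le_div_iff₀ (by positivity) (by norm_num)]
    have h1 : 4 < ε * T0 := by
      rw [div_lt_iff₀ hε] at hT0
      linarith
    rw [hTR]
    nlinarith
  obtain ⟨r, hr⟩ : ∃ r : ℝ, r = ((k + 1 : ℕ) : ℝ) := ⟨_, rfl⟩
  have hr1 : (1 : ℝ) ≤ r := by
    rw [hr]
    exact_mod_cast (by omega : 1 ≤ k + 1)
  refine ⟨T, by omega, fun N => ?_⟩
  have htend : Tendsto (fun n : ℕ => (n : ℝ) ^ (ε / 2)) atTop atTop :=
    (tendsto_rpow_atTop (by positivity)).comp tendsto_natCast_atTop_atTop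
  obtain ⟨N0, hN0⟩ := Filter.eventually_atTop.1 (htend.eventually_ge_atTop (256 * r ^ 2))
  obtain ⟨n, hn, G, hdeg, hP⟩ := power k T hk (by omega) (max N (max N0 1))
  rw [← hr] at hdeg hP
  have hnN0 : N0 ≤ n := (le_max_left _ _).trans ((le_max_right _ _).trans hn)
  have hn1 : 1 ≤ n := (le_max_right _ _).trans ((le_max_right _ _).trans hn)
  have hn1R : (1 : ℝ) ≤ n := by exact_mod_cast hn1
  have hnpos : (0 : ℝ) < n := by linarith
  have h1 := hN0 n hnN0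
  have h2 : (n : ℝ) ^ (1 - ε) * (n : ℝ) ^ (ε / 2) ≤ (n : ℝ) ^ (1 - 2 / ((T : ℝ) + 1)) := by
    rw [← Real.rpow_add hnpos]
    apply Real.rpow_le_rpow_of_exponent_le hn1R
    linarith
  have h3 : (n : ℝ) ^ (1 - ε) * (256 * r ^ 2) ≤ (n : ℝ) ^ (1 - ε) * (n : ℝ) ^ (ε / 2) :=
    mul_le_mul_of_nonneg_left h1 (Real.rpow_nonneg hnpos.le _)
  have h4 : (n : ℝ) ^ (1 - ε) ≤ (n : ℝ) ^ (1 - 2 / ((T : ℝ) + 1)) / (256 * r ^ 2) := by
    rw [le_div_iff₀ (by positivity)]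
    linarith
  have h5 : (n : ℝ) ^ (1 - 2 / ((T : ℝ) + 1)) / (256 * r ^ 2) ≤
      (n : ℝ) ^ (1 - 2 / ((T : ℝ) + 1)) / (256 * r) := by
    apply div_le_div_of_nonneg_left (Real.rpow_nonneg hnpos.le _) (by positivity)
    nlinarith
  refine ⟨n, (le_max_left _ _).trans hn, G, fun v => ?_, fun P hPt => ?_⟩
  · rw [← hr]
    have := hdeg v
    linarith
  · have := hP P hPt
    linarith

end Pool.Agent.H3.OT
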