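import Pool.Graph.R_seed8.Y996.OT.Stm

/-!
The value of `χ*_cr` for the ordered complete `r`-partite graph whose parts are `r` intervals of
`T` vertices (generalising the starting file, which has `r = 3`).
-/

set_option autoImplicit false

namespace Pool.Agent.H3.OT

open Pool.Agent.H730R4 Pool.Agent.Y996.OT

/-- The ordered complete `r`-partite graph on `r T` vertices whose parts are the `r` intervals of
`T` consecutive vertices. -/
def KR (r T : ℕ) : SimpleGraph (Fin (r * T)) where
  Adj a b := (a : ℕ) / T ≠ (b : ℕ) / T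
  symm := ⟨fun _ _ h => Ne.symm h⟩
  loopless := ⟨fun _ h => h rfl⟩

section

variable {r T : ℕ}

/-- The parts of `KR r T`. -/
def cR (r T : ℕ) : Fin (r * T) → Fin r := fun v =>
  ⟨(v : ℕ) / T, Nat.div_lt_of_lt_mul (lt_of_lt_of_eq v.isLt (mul_comm _ _))⟩

/-- the `j`-th vertex of the `i`-th part -/
def pt (r T : ℕ) (i : Fin r) (j : Fin T) : Fin (r * T) := ⟨i * T + j, by
  have h1 := i.isLt
  have h2 := j.isLt
  have h3 : ((i : ℕ) + 1) * T ≤ r * T := Nat.mul_le_mul_right T (by omega)
  rw [Nat.add_mul, Nat.one_mul] at h3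
  omega⟩

lemma pt_val (i : Fin r) (j : Fin T) : (pt r T i j : ℕ) = i * T + j := rfl

lemma cR_pt (i : Fin r) (j : Fin T) : cR r T (pt r T i j) = i := by
  ext
  change ((i : ℕ) * T + j) / T = i
  have hT : 0 < T := j.pos
  rw [mul_comm, Nat.mul_add_div hT, Nat.div_eq_of_lt j.isLt, add_zero]

lemma cR_surj (hT : 1 ≤ T) : Function.Surjective (cR r T) := fun i =>
  ⟨pt r T i ⟨0, hT⟩, cR_pt i _⟩

lemma cR_adj (u v : Fin (r * T)) : (KR r T).Adj u v ↔ cR r T u ≠ cR r T v := by
  change (u : ℕ) / T ≠ (v : ℕ) / T ↔ _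
  rw [Ne, Ne, Fin.ext_iff]
  rfl

lemma cR_fibre (hT : 1 ≤ T) (i : Fin r) :
    (Finset.univ.filter (fun a : Fin (r * T) => cR r T a = i)).card = T := by
  have h : Finset.univ.filter (fun a : Fin (r * T) => cR r T a = i) =
      (Finset.univ : Finset (Fin T)).image (pt r T i) := by
    ext a
    rw [Finset.mem_filter, Finset.mem_image]
    constructor
    · rintro ⟨-, h⟩
      refine ⟨⟨(a : ℕ) % T, Nat.mod_lt _ hT⟩, Finset.mem_univ _, ?_⟩
      ext
      rw [pt_val, ← h]
      change (a : ℕ) / T * T + (a : ℕ) % T = a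
      exact Nat.div_add_mod' _ _
    · rintro ⟨j, -, rfl⟩
      exact ⟨Finset.mem_univ _, cR_pt i j⟩
  rw [h, Finset.card_image_of_injective, Finset.card_univ, Fintype.card_fin]
  intro j j' hjj
  have := congrArg Fin.val hjj
  rw [pt_val, pt_val] at this
  ext
  omega

lemma cR_count (hT : 1 ≤ T) (p : Fin r → Prop) [DecidablePred p] :
    (Finset.univ.filter (fun v : Fin (r * T) => p (cR r T v))).card =
      T * (Finset.univ.filter p).card := by
  rw [Finset.card_eq_sum_card_fiberwise (f := cR r T)
    (s := Finset.univ.filter (fun v : Fin (r * T) => p (cR r T v)))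
    (t := Finset.univ.filter p) (fun v hv => by
      rw [Finset.mem_coe, Finset.mem_filter] at hv ⊢
      exact ⟨Finset.mem_univ _, hv.2⟩)]
  have : ∀ i ∈ Finset.univ.filter p,
      ((Finset.univ.filter (fun v : Fin (r * T) => p (cR r T v))).filter
        (fun v => cR r T v = i)).card = T := by
    intro i hi
    refine Eq.trans ?_ (cR_fibre hT i)
    congr 1
    ext v
    simp only [Finset.mem_filter, Finset.mem_univ, true_and] at hi ⊢
    constructor
    · exact fun h => h.2
    · intro h
      exact ⟨by rw [h]; exact hi, h⟩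
  rw [Finset.sum_congr rfl this, Finset.sum_const, smul_eq_mul, mul_comm]

lemma chiCr_KR_le (hr : 2 ≤ r) (hT : 1 ≤ T) : chiCr (KR r T) ≤ r := by
  unfold chiCr
  rw [mp_chrom (cR_surj hT) cR_adj]
  have h1 : leastClass (KR r T) r ≤ T := by
    refine (mp_least_le cR_adj ⟨0, by omega⟩).trans ?_
    have : {v | cR r T v = ⟨0, by omega⟩} =
        ((Finset.univ.filter (fun a : Fin (r * T) => cR r T a = ⟨0, by omega⟩) :
          Finset (Fin (r * T))) : Set (Fin (r * T))) := by
      ext v
      simp
    rw [this, Set.ncard_coe_finset, cR_fibre hT]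
  have h2 : (leastClass (KR r T) r : ℝ) ≤ T := by exact_mod_cast h1
  have h3 : (1 : ℝ) ≤ T := by exact_mod_cast hT
  have h4 : (2 : ℝ) ≤ r := by exact_mod_cast hr
  have h5 : (0 : ℝ) < ((r * T : ℕ) : ℝ) - leastClass (KR r T) r := by
    push_cast
    nlinarith
  rw [div_le_iff₀ h5]
  push_cast
  nlinarith

lemma permr (σ : Equiv.Perm (Fin r)) (j : Fin r) :
    (Finset.univ.filter (fun i : Fin r => σ i < σ j)).card = (σ j : ℕ) ∧
    (Finset.univ.filter (fun i : Fin r => σ j < σ i)).card = r - 1 - (σ j : ℕ) := by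
  constructor
  · rw [← Fin.card_Iio (σ j)]
    apply Finset.card_bij (fun i _ => σ i)
    · intro i hi
      rw [Finset.mem_filter] at hi
      rw [Finset.mem_Iio]
      exact hi.2
    · intro i _ i' _ h
      exact σ.injective h
    · intro y hy
      rw [Finset.mem_Iio] at hy
      exact ⟨σ.symm y, by simp [hy], by simp⟩
  · rw [← Fin.card_Ioi (σ j)]
    apply Finset.card_bij (fun i _ => σ i)
    · intro i hi
      rw [Finset.mem_filter] at hi
      rw [Finset.mem_Ioi]
      exact hi.2
    · intro i _ i' _ h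
      exact σ.injective h
    · intro y hy
      rw [Finset.mem_Ioi] at hy
      exact ⟨σ.symm y, by simp [hy], by simp⟩

lemma KR_label (hT : 1 ≤ T) (σ : Equiv.Perm (Fin r)) (φ : Equiv.Perm (Fin (r * T)))
    (h : ∀ u v, σ (cR r T u) < σ (cR r T v) → φ u < φ v) (u : Fin (r * T)) :
    (φ u : ℕ) / T = σ (cR r T u) := by
  obtain ⟨h1, h2⟩ := permr σ (cR r T u)
  have h1' := cR_count hT (fun i => σ i < σ (cR r T u))
  have h2' := cR_count hT (fun i => σ (cR r T u) < σ i)
  rw [h1] at h1'
  rw [h2] at h2'
  have h3 : (Finset.univ.filter (fun v : Fin (r * T) => σ (cR r T v) < σ (cR r T u))).card ≤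
      φ u := by
    have : ((Finset.univ.filter (fun v : Fin (r * T) =>
        σ (cR r T v) < σ (cR r T u))).image φ) ⊆ Finset.Iio (φ u) := by
      intro x hx
      rw [Finset.mem_image] at hx
      obtain ⟨v, hv, rfl⟩ := hx
      rw [Finset.mem_filter] at hv
      rw [Finset.mem_Iio]
      exact h v u hv.2
    have h4 := Finset.card_le_card this
    rw [Finset.card_image_of_injective _ φ.injective, Fin.card_Iio] at h4
    exact h4
  have h5 : (Finset.univ.filter (fun v : Fin (r * T) => σ (cR r T u) < σ (cR r T v))).card ≤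
      r * T - 1 - φ u := by
    have : ((Finset.univ.filter (fun v : Fin (r * T) =>
        σ (cR r T u) < σ (cR r T v))).image φ) ⊆ Finset.Ioi (φ u) := by
      intro x hx
      rw [Finset.mem_image] at hx
      obtain ⟨v, hv, rfl⟩ := hx
      rw [Finset.mem_filter] at hv
      rw [Finset.mem_Ioi]
      exact h u v hv.2
    have h4 := Finset.card_le_card this
    rw [Finset.card_image_of_injective _ φ.injective, Fin.card_Ioi] at h4
    exact h4
  rw [h1'] at h3
  rw [h2'] at h5
  have h6 := (φ u).isLt
  have h7 := (σ (cR r T u)).isLt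
  generalize (φ u : ℕ) = x at h3 h5 h6 ⊢
  generalize ((σ (cR r T u) : Fin r) : ℕ) = k at h3 h5 h7 ⊢
  obtain ⟨m, hm⟩ : ∃ m, r = k + 1 + m := ⟨r - (k + 1), by omega⟩
  have e1 : r - 1 - k = m := by omega
  have e2 : r * T = (k + 1) * T + T * m := by rw [hm]; ring
  rw [e1, e2] at h5
  rw [e2] at h6
  apply Nat.div_eq_of_lt_le
  · rw [mul_comm]; exact h3
  · have : 0 < (k + 1) * T := Nat.mul_pos (by omega) (by omega)
    omega

lemma KR_bottle (hr : 1 ≤ r) (hT : 1 ≤ T) : IsBottlegraph (KR r T) (KR r T) := by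
  refine ⟨Nat.mul_pos (by omega) (by omega), r, cR r T, cR_surj hT, cR_adj, ?_⟩
  intro σ φ h
  refine ⟨1, by norm_num, {fun a => ⟨(a : ℕ), by omega⟩}, ⟨?_, ?_⟩, ?_⟩
  · rintro f rfl
    refine ⟨fun a b hab => hab, ?_⟩
    intro a b hab
    change (KR r T).Adj (φ.symm (Fin.divNat _)) (φ.symm (Fin.divNat _))
    have ea : ∀ a : Fin (r * T), (Fin.divNat (⟨(a : ℕ), by omega⟩ : Fin (r * T * 1))) = a := by
      intro a; ext; simp [Fin.divNat]
    rw [ea, ea, cR_adj]
    intro heq
    have h1 := KR_label hT σ φ h (φ.symm a)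
    have h2 := KR_label hT σ φ h (φ.symm b)
    rw [Equiv.apply_symm_apply] at h1 h2
    rw [heq, ← h2] at h1
    exact hab h1
  · rintro f rfl g rfl hfg
    exact absurd rfl hfg
  · ext x
    simp only [covered, Set.mem_singleton_iff, Set.iUnion_iUnion_eq_left, Set.mem_range,
      Set.mem_univ, iff_true]
    exact ⟨⟨x, by omega⟩, by ext; rfl⟩

lemma strictMono_fin_id {f : Fin r → Fin r} (hf : StrictMono f) (i : Fin r) : f i = i := by
  have h : Function.Surjective f := Finite.injective_iff_surjective.1 hf.injective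
  have h2 : f = id := (StrictMono.range_inj hf strictMono_id).1 (by rw [h.range_eq, Set.range_id])
  rw [h2]
  rfl

lemma chain (hT : 1 ≤ T) (q : Fin (r * T) → Fin r) (hm : Monotone q)
    (hne : ∀ a b : Fin (r * T), (a : ℕ) / T ≠ (b : ℕ) / T → q a ≠ q b) :
    ∀ a, q a = cR r T a := by
  intro a
  let g : Fin r → Fin (r * T) := fun i => if i = cR r T a then a else pt r T i ⟨0, hT⟩
  have hg : ∀ i, (g i : ℕ) / T = i := by
    intro i
    by_cases h : i = cR r T a
    · simp only [g, if_pos h]
      rw [h]
      rfl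
    · simp only [g, if_neg h]
      exact congrArg Fin.val (cR_pt i (⟨0, hT⟩ : Fin T))
  have hs : StrictMono (fun i => q (g i)) := by
    intro i j hij
    have h1 : (g i : ℕ) < g j := by
      by_contra hc
      have := Nat.div_le_div_right (c := T) (not_lt.1 hc)
      rw [hg, hg] at this
      rw [Fin.lt_def] at hij
      omega
    apply lt_of_le_of_ne (hm (Fin.le_def.2 h1.le))
    apply hne
    rw [hg, hg]
    rw [Fin.lt_def] at hij
    omega
  have h := strictMono_fin_id hs (cR r T a)
  simp only [g, if_true] at h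
  exact h

lemma bottle_ge (hr : 2 ≤ r) (hT : 1 ≤ T) {N : ℕ} {B : SimpleGraph (Fin N)}
    (hb : IsBottlegraph (KR r T) B) : (r : ℝ) ≤ chiCr B := by
  classical
  obtain ⟨hN, k, c, hc, hB, hall⟩ := hb
  obtain ⟨φ, hφ⟩ := exists_sorted c
  obtain ⟨t, ht, P, hP, hcov⟩ := hall 1 φ (fun u v h => hφ u v h)
  -- the part of a vertex of the blow-up
  let q : Fin (N * t) → Fin k := fun x => c (φ.symm x.divNat)
  have hq : Monotone q := by
    intro x y hxy
    have h1 : x.divNat ≤ y.divNat := divNat_mono hxy
    by_contra hcon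
    have h2 := hφ _ _ (not_le.1 hcon)
    rw [Equiv.apply_symm_apply, Equiv.apply_symm_apply] at h2
    exact absurd h1 (not_le.2 h2)
  have hcopy : ∀ f ∈ P, ∀ a b : Fin (r * T), (a : ℕ) / T ≠ (b : ℕ) / T → q (f a) ≠ q (f b) := by
    intro f hf a b hab
    have h := (hP.1 f hf).2 a b hab
    change B.Adj (φ.symm _) (φ.symm _) at h
    exact (hB _ _).1 h
  -- a copy exists
  have hpos : 0 < N * t := Nat.mul_pos hN ht
  have hk : r ≤ k := by
    have hx : (⟨0, hpos⟩ : Fin (N * t)) ∈ covered P := by rw [hcov]; exact Set.mem_univ _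
    simp only [covered, Set.mem_iUnion] at hx
    obtain ⟨f, hf, -⟩ := hx
    have hpd : ∀ i : Fin r, (pt r T i ⟨0, hT⟩ : ℕ) / T = i := fun i =>
      congrArg Fin.val (cR_pt i (⟨0, hT⟩ : Fin T))
    have hinj : Function.Injective (fun i : Fin r => q (f (pt r T i ⟨0, hT⟩))) := by
      intro i j hij
      by_contra hne
      refine hcopy f hf (pt r T i ⟨0, hT⟩) (pt r T j ⟨0, hT⟩) ?_ hij
      rw [hpd, hpd]
      exact fun h => hne (Fin.ext h)
    have := Fintype.card_le_of_injective _ hinj
    rwa [Fintype.card_fin, Fintype.card_fin] at this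
  unfold chiCr
  rw [mp_chrom hc hB]
  obtain ⟨j, hj⟩ := mp_least_mem (by omega) hc hB
  -- the least class misses a vertex
  have hlt : leastClass B k < N := by
    obtain ⟨l, hl⟩ : ∃ l : Fin k, l ≠ j := by
      by_cases h0 : j = ⟨0, by omega⟩
      · refine ⟨⟨1, by omega⟩, ?_⟩
        rw [h0]
        intro h
        rw [Fin.ext_iff] at h
        simp at h
      · exact ⟨⟨0, by omega⟩, fun h => h0 h.symm⟩
    obtain ⟨v, hv⟩ := hc l
    rw [hj]
    have : {v | c v = j} ⊂ Set.univ := by
      refine ⟨Set.subset_univ _, fun h => ?_⟩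
      have hh := h (Set.mem_univ v)
      simp only [Set.mem_ofPred_eq] at hh
      exact hl (hv.symm.trans hh)
    have h := Set.ncard_lt_ncard this (Set.toFinite _)
    rw [Set.ncard_univ, Nat.card_eq_fintype_card, Fintype.card_fin] at h
    exact h
  have hNpos : (0 : ℝ) < N := by exact_mod_cast hN
  have hltR : (leastClass B k : ℝ) < N := by exact_mod_cast hlt
  have hden : (0 : ℝ) < N - leastClass B k := by linarith
  rw [le_div_iff₀ hden]
  rcases Nat.lt_or_ge r k with hk4 | hk3
  · have hk4' : ((r : ℝ) + 1) ≤ k := by exact_mod_cast hk4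
    have h0 : (0 : ℝ) ≤ leastClass B k := Nat.cast_nonneg _
    have hr0 : (0 : ℝ) ≤ r := Nat.cast_nonneg _
    have h1 : (r : ℝ) * N ≤ ((k : ℝ) - 1) * N := mul_le_mul_of_nonneg_right (by linarith) hNpos.le
    have h2 : (0 : ℝ) ≤ r * leastClass B k := mul_nonneg hr0 h0
    linarith
  · have hk3' : k = r := by omega
    subst hk3'
    -- each copy meets each part of the blow-up in `T` vertices
    set P' : Finset (Fin (k * T) → Fin (N * t)) := P.toFinite.toFinset with hP'
    have hmem : ∀ f, f ∈ P' ↔ f ∈ P := fun f => P.toFinite.mem_toFinset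
    have hchain : ∀ f ∈ P, ∀ a, q (f a) = cR k T a := by
      intro f hf
      exact chain hT (fun a => q (f a)) (fun a b hab => hq ((hP.1 f hf).1.monotone hab))
        (fun a b hab => hcopy f hf a b hab)
    have hcount : ∀ i : Fin k,
        (Finset.univ.filter (fun x : Fin (N * t) => q x = i)).card = T * P'.card := by
      intro i
      have heq : Finset.univ.filter (fun x : Fin (N * t) => q x = i) =
          P'.biUnion (fun f =>
            (Finset.univ.filter (fun a : Fin (k * T) => cR k T a = i)).image f) := by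
        ext x
        simp only [Finset.mem_filter, Finset.mem_univ, true_and, Finset.mem_biUnion,
          Finset.mem_image]
        constructor
        · intro hx
          have hx' : x ∈ covered P := by rw [hcov]; exact Set.mem_univ _
          simp only [covered, Set.mem_iUnion, Set.mem_range] at hx'
          obtain ⟨f, hf, a, rfl⟩ := hx'
          exact ⟨f, (hmem f).2 hf, a, by rw [← hchain f hf a]; exact hx, rfl⟩
        · rintro ⟨f, hf, a, ha, rfl⟩
          rw [hchain f ((hmem f).1 hf) a]
          exact ha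
      rw [heq, Finset.card_biUnion]
      · have : ∀ f ∈ P',
            ((Finset.univ.filter (fun a : Fin (k * T) => cR k T a = i)).image f).card = T := by
          intro f hf
          rw [Finset.card_image_of_injective _ (hP.1 f ((hmem f).1 hf)).1.injective]
          exact cR_fibre hT i
        rw [Finset.sum_congr rfl this, Finset.sum_const, smul_eq_mul, mul_comm]
      · intro f hf g hg hfg
        have h := hP.2 f ((hmem f).1 hf) g ((hmem g).1 hg) hfg
        refine Finset.disjoint_left.2 ?_
        intro x hx hy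
        rw [Finset.mem_image] at hx hy
        obtain ⟨i, -, hi⟩ := hx
        obtain ⟨j, -, hj⟩ := hy
        exact Set.disjoint_left.1 h ⟨i, hi⟩ ⟨j, hj⟩
    have hpart : ∀ i : Fin k,
        t * (Finset.univ.filter (fun v : Fin N => c v = i)).card = T * P'.card := by
      intro i
      rw [← hcount i, card_fiber (fun y : Fin N => c (φ.symm y) = i)]
      congr 1
      apply Finset.card_bij (fun v _ => φ v)
      · intro v hv
        simpa using hv
      · intro v _ w _ h
        exact φ.injective h
      · intro y hy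
        exact ⟨φ.symm y, by simpa using hy, by simp⟩
    have hsum : ∑ i : Fin k, (Finset.univ.filter (fun v : Fin N => c v = i)).card = N := by
      have := Finset.card_eq_sum_card_fiberwise (f := c) (s := (Finset.univ : Finset (Fin N)))
        (t := (Finset.univ : Finset (Fin k))) (fun _ _ => Finset.mem_coe.2 (Finset.mem_univ _))
      rw [Finset.card_univ, Fintype.card_fin] at this
      exact this.symm
    have ej := hpart j
    have hjc : leastClass B k = (Finset.univ.filter (fun v : Fin N => c v = j)).card := by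
      rw [hj, ← Set.ncard_coe_finset]
      congr 1
      ext v
      simp
    have h3 : t * (k * leastClass B k) = t * N := by
      rw [hjc]
      have hs := congrArg (fun z => t * z) hsum
      simp only [Finset.mul_sum] at hs
      rw [Finset.sum_congr rfl (fun i _ => hpart i), Finset.sum_const, Finset.card_univ,
        Fintype.card_fin, smul_eq_mul, ← ej] at hs
      rw [← hs]
      ring
    have h4 : k * leastClass B k = N := Nat.eq_of_mul_eq_mul_left ht h3
    have h5 : (k : ℝ) * leastClass B k = N := by exact_mod_cast h4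
    linarith

end

theorem chi (r T : ℕ) (hr : 2 ≤ r) (hT : 1 ≤ T) : chiStarCr (KR r T) = r := by
  apply le_antisymm
  · have hbdd : BddBelow {x : ℝ | ∃ (N : ℕ) (B : SimpleGraph (Fin N)),
        IsBottlegraph (KR r T) B ∧ x = chiCr B} := by
      refine ⟨r, ?_⟩
      rintro x ⟨N, B, hb, rfl⟩
      exact bottle_ge hr hT hb
    have hmem : chiCr (KR r T) ∈ {x : ℝ | ∃ (N : ℕ) (B : SimpleGraph (Fin N)),
        IsBottlegraph (KR r T) B ∧ x = chiCr B} :=
      ⟨r * T, KR r T, KR_bottle (by omega) hT, rfl⟩
    exact (csInf_le hbdd hmem).trans (chiCr_KR_le hr hT)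
  · have hne : {x : ℝ | ∃ (N : ℕ) (B : SimpleGraph (Fin N)),
        IsBottlegraph (KR r T) B ∧ x = chiCr B}.Nonempty :=
      ⟨_, r * T, KR r T, KR_bottle (by omega) hT, rfl⟩
    refine le_csInf hne ?_
    rintro x ⟨N, B, hb, rfl⟩
    exact bottle_ge hr hT hb

end Pool.Agent.H3.OT
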