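import Pool.Agent.H3.OT.Chi

/-!
The graph `bigR`: `k` independent intervals of `a` vertices and a last interval carrying a graph
`F` without `K_{T,T}`. Every copy of `KR (k+1) T` has its first `T` vertices in the first interval.
-/

set_option autoImplicit false

namespace Pool.Agent.H3.OT

open Pool.Agent.H730R4 Pool.Agent.Y996.OT

/-- The number of the interval: `k` intervals of `a` vertices, then the last one. -/
def prt (k a u : ℕ) : ℕ := if u < k * a then u / a else k

lemma prt_le (k a u : ℕ) : prt k a u ≤ k := by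
  unfold prt
  split_ifs with h
  · exact (Nat.div_lt_of_lt_mul (by rwa [mul_comm])).le
  · exact le_rfl

lemma prt_mono (k a : ℕ) {u v : ℕ} (h : u ≤ v) : prt k a u ≤ prt k a v := by
  by_cases hv : v < k * a
  · have hu : u < k * a := lt_of_le_of_lt h hv
    unfold prt
    rw [if_pos hu, if_pos hv]
    exact Nat.div_le_div_right h
  · have : prt k a v = k := by unfold prt; rw [if_neg hv]
    rw [this]
    exact prt_le k a u

lemma prt_eq_k {k a u : ℕ} (h : k ≤ prt k a u) : k * a ≤ u := by
  by_contra hc
  have hc' : u < k * a := not_le.1 hc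
  unfold prt at h
  rw [if_pos hc'] at h
  have := Nat.div_lt_of_lt_mul (m := u) (n := a) (k := k) (by rwa [mul_comm])
  omega

lemma prt_pos {k a u : ℕ} (hk : 1 ≤ k) (h : a ≤ u) : 1 ≤ prt k a u := by
  unfold prt
  split_ifs with h1
  · have ha : 0 < a := by
      rcases Nat.eq_zero_or_pos a with h0 | h0
      · subst h0; simp at h1
      · exact h0
    exact (Nat.one_le_div_iff ha).2 h
  · exact hk

/-- `k` independent intervals of `a` vertices, completely joined to each other and to a last
interval of `m` vertices, which carries the graph `F`. -/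
def bigR (k a m : ℕ) (F : SimpleGraph (Fin m)) : SimpleGraph (Fin (k * a + m)) where
  Adj u v := prt k a u ≠ prt k a v ∨
    ∃ i j : Fin m, (u : ℕ) = k * a + i ∧ (v : ℕ) = k * a + j ∧ F.Adj i j
  symm := ⟨by
    rintro u v (h | ⟨i, j, h1, h2, h3⟩)
    · exact Or.inl h.symm
    · exact Or.inr ⟨j, i, h2, h1, h3.symm⟩⟩
  loopless := ⟨by
    rintro u (h | ⟨i, j, h1, h2, h3⟩)
    · exact h rfl
    · have : i = j := by ext; omega
      subst this
      exact F.loopless.irrefl _ h3⟩

lemma copy_low {k T a m : ℕ} (hk : 2 ≤ k) (hT : 1 ≤ T) {F : SimpleGraph (Fin m)}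
    (hF : KFree T F) {f : Fin ((k + 1) * T) → Fin (k * a + m)}
    (hf : IsCopy (KR (k + 1) T) (bigR k a m F) f)
    (i0 : Fin ((k + 1) * T)) (hi0 : (i0 : ℕ) < T) : (f i0 : ℕ) < a := by
  have hTk : T ≤ (k + 1) * T := Nat.le_mul_of_pos_left T (by omega)
  have hmono := hf.1
  set l : Fin ((k + 1) * T) := ⟨T - 1, by omega⟩ with hl
  have hlv : (l : ℕ) = T - 1 := rfl
  suffices h : (f l : ℕ) < a by
    have h1 : i0 ≤ l := by
      rw [Fin.le_def, hlv]
      omega
    have h2 : f i0 ≤ f l := hmono.monotone h1
    rw [Fin.le_def] at h2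
    omega
  by_contra hcon
  have hl1 : 1 ≤ prt k a (f l) := prt_pos (by omega) (not_lt.1 hcon)
  have key : ∀ j : ℕ, ∀ x : Fin ((k + 1) * T), (x : ℕ) / T = j → T - 1 ≤ (x : ℕ) →
      min (j + 1) k ≤ prt k a (f x) := by
    intro j
    induction j with
    | zero =>
      intro x hx hx1
      have hxT : (x : ℕ) < T := by
        rcases (Nat.div_eq_zero_iff).1 hx with h | h
        · omega
        · exact h
      have hxl : x = l := by
        ext
        rw [hlv]
        omega
      rw [hxl]
      exact (min_le_left _ _).trans hl1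
    | succ j ih =>
      intro x hx _
      have hjx : (j + 1) * T ≤ (x : ℕ) := by
        rw [← hx]
        exact Nat.div_mul_le_self _ _
      have hj1 : T ≤ (j + 1) * T := Nat.le_mul_of_pos_left T (by omega)
      set y : Fin ((k + 1) * T) := ⟨(j + 1) * T - 1, by have := x.isLt; omega⟩ with hy
      have hyv : (y : ℕ) = (j + 1) * T - 1 := rfl
      have hyd : (y : ℕ) / T = j := by
        rw [hyv]
        apply Nat.div_eq_of_lt_le
        · rw [Nat.add_mul, Nat.one_mul]
          omega
        · omega
      have h1 := ih y hyd (by rw [hyv]; omega)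
      have hyx : (f y : ℕ) < f x := hmono (by rw [Fin.lt_def, hyv]; omega)
      have hadj : (KR (k + 1) T).Adj y x := by
        change (y : ℕ) / T ≠ (x : ℕ) / T
        rw [hyd, hx]
        omega
      rcases hf.2 y x hadj with h | ⟨i, i', h2, h3, -⟩
      · have h4 := prt_mono k a hyx.le
        have h5 := prt_le k a (f x)
        omega
      · have : prt k a (f x) = k := by
          unfold prt
          rw [if_neg (by omega)]
        rw [this]
        exact min_le_right _ _
  have hhigh : ∀ x : Fin ((k + 1) * T), k - 1 ≤ (x : ℕ) / T → k * a ≤ (f x : ℕ) := by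
    intro x hx
    apply prt_eq_k
    refine le_trans ?_ (key _ x rfl ?_)
    · rw [le_min_iff]
      exact ⟨by omega, le_rfl⟩
    · by_contra hc
      rw [Nat.div_eq_of_lt (by omega)] at hx
      omega
  have hxb : ∀ i : Fin T, (k - 1) * T + i < (k + 1) * T := by
    intro i
    have h1 := i.isLt
    have h2 : (k - 1 + 1) * T ≤ (k + 1) * T := Nat.mul_le_mul_right T (by omega)
    rw [Nat.add_mul, Nat.one_mul] at h2
    omega
  have hyb : ∀ i : Fin T, k * T + i < (k + 1) * T := by
    intro i
    have h1 := i.isLt
    rw [Nat.add_mul, Nat.one_mul]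
    omega
  have hxd : ∀ i : Fin T, ((k - 1) * T + (i : ℕ)) / T = k - 1 := by
    intro i
    rw [mul_comm, Nat.mul_add_div (by omega), Nat.div_eq_of_lt i.isLt, add_zero]
  have hyd : ∀ i : Fin T, (k * T + (i : ℕ)) / T = k := by
    intro i
    rw [mul_comm, Nat.mul_add_div (by omega), Nat.div_eq_of_lt i.isLt, add_zero]
  let x : Fin T → Fin m := fun i =>
    ⟨(f ⟨(k - 1) * T + i, hxb i⟩ : ℕ) - k * a, by
      have h1 := hhigh ⟨(k - 1) * T + i, hxb i⟩ (by simp only; rw [hxd])
      have h2 := (f ⟨(k - 1) * T + i, hxb i⟩).isLt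
      omega⟩
  let y : Fin T → Fin m := fun i =>
    ⟨(f ⟨k * T + i, hyb i⟩ : ℕ) - k * a, by
      have h1 := hhigh ⟨k * T + i, hyb i⟩ (by simp only; rw [hyd]; omega)
      have h2 := (f ⟨k * T + i, hyb i⟩).isLt
      omega⟩
  have hx : ∀ i : Fin T, (f ⟨(k - 1) * T + i, hxb i⟩ : ℕ) = k * a + x i := by
    intro i
    have h1 := hhigh ⟨(k - 1) * T + i, hxb i⟩ (by simp only; rw [hxd])
    simp only [x]
    omega
  have hy : ∀ i : Fin T, (f ⟨k * T + i, hyb i⟩ : ℕ) = k * a + y i := by
    intro i
    have h1 := hhigh ⟨k * T + i, hyb i⟩ (by simp only; rw [hyd]; omega)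
    simp only [y]
    omega
  refine hF x y ?_ ?_ ?_
  · intro i i' hii
    have h1 := hx i
    rw [hii, ← hx i'] at h1
    have h2 := hmono.injective (Fin.ext h1)
    rw [Fin.ext_iff] at h2
    simp only at h2
    ext
    omega
  · intro i i' hii
    have h1 := hy i
    rw [hii, ← hy i'] at h1
    have h2 := hmono.injective (Fin.ext h1)
    rw [Fin.ext_iff] at h2
    simp only at h2
    ext
    omega
  · intro i j
    have hadj : (KR (k + 1) T).Adj ⟨(k - 1) * T + i, hxb i⟩ ⟨k * T + j, hyb j⟩ := by
      change ((k - 1) * T + (i : ℕ)) / T ≠ (k * T + (j : ℕ)) / T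
      rw [hxd, hyd]
      omega
    have h1 := hhigh ⟨(k - 1) * T + i, hxb i⟩ (by simp only; rw [hxd])
    have h2 := hhigh ⟨k * T + j, hyb j⟩ (by simp only; rw [hyd]; omega)
    rcases hf.2 _ _ hadj with h | ⟨u, v, h3, h4, h5⟩
    · exfalso
      apply h
      unfold prt
      rw [if_neg (by omega), if_neg (by omega)]
    · have e1 : u = x i := by
        ext
        have := hx i
        omega
      have e2 : v = y j := by
        ext
        have := hy j
        omega
      rw [e1, e2] at h5
      exact h5

theorem gap {k T a m : ℕ} (hk : 2 ≤ k) (hT : 1 ≤ T) (F : SimpleGraph (Fin m))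
    (hF : KFree T F) (P : Set (Fin ((k + 1) * T) → Fin (k * a + m)))
    (hP : IsTiling (KR (k + 1) T) (bigR k a m F) P) :
    m ≤ a + ((covered P)ᶜ).ncard := by
  classical
  set P' : Finset (Fin ((k + 1) * T) → Fin (k * a + m)) := P.toFinite.toFinset with hP'
  have hmem : ∀ f, f ∈ P' ↔ f ∈ P := fun f => P.toFinite.mem_toFinset
  have hcov : covered P = ↑(P'.biUnion fun f => Finset.univ.image f) := by
    ext x
    simp [covered, hmem]
  have hcard : (covered P).ncard ≤ (k + 1) * T * P'.card := by
    rw [hcov, Set.ncard_coe_finset]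
    calc (P'.biUnion fun f => Finset.univ.image f).card
        ≤ ∑ f ∈ P', (Finset.univ.image f).card := Finset.card_biUnion_le
      _ ≤ ∑ f ∈ P', (k + 1) * T := Finset.sum_le_sum fun f _ => by
          simpa using (Finset.card_image_le
            (s := (Finset.univ : Finset (Fin ((k + 1) * T)))) (f := f))
      _ = (k + 1) * T * P'.card := by rw [Finset.sum_const, smul_eq_mul, mul_comm]
  have hTk : T ≤ (k + 1) * T := Nat.le_mul_of_pos_left T (by omega)
  set L : Finset (Fin ((k + 1) * T)) := Finset.univ.filter (fun i => (i : ℕ) < T) with hL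
  have hLc : L.card = T := by
    have : L = (Finset.univ : Finset (Fin T)).map (Fin.castLEEmb hTk) := by
      ext i
      rw [hL, Finset.mem_filter, Finset.mem_map]
      constructor
      · rintro ⟨-, hi⟩
        exact ⟨⟨i, hi⟩, Finset.mem_univ _, by ext; rfl⟩
      · rintro ⟨j, -, rfl⟩
        exact ⟨Finset.mem_univ _, j.isLt⟩
    rw [this, Finset.card_map, Finset.card_univ, Fintype.card_fin]
  have hlow : T * P'.card ≤ a := by
    have hd : ∀ f ∈ P', ∀ g ∈ P', f ≠ g → Disjoint (L.image f) (L.image g) := by
      intro f hf g hg hfg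
      have h := hP.2 f ((hmem f).1 hf) g ((hmem g).1 hg) hfg
      rw [Finset.disjoint_left]
      intro x hx hy
      rw [Finset.mem_image] at hx hy
      obtain ⟨i, -, hi⟩ := hx
      obtain ⟨j, -, hj⟩ := hy
      exact Set.disjoint_left.1 h ⟨i, hi⟩ ⟨j, hj⟩
    have h1 : (P'.biUnion fun f => L.image f).card = T * P'.card := by
      rw [Finset.card_biUnion hd]
      have : ∀ f ∈ P', (L.image f).card = T := by
        intro f hf
        have hinj := (hP.1 f ((hmem f).1 hf)).1.injective
        rw [Finset.card_image_of_injective _ hinj, hLc]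
      rw [Finset.sum_congr rfl this, Finset.sum_const, smul_eq_mul, mul_comm]
    have h2 : (P'.biUnion fun f => L.image f) ⊆
        (Finset.univ.filter fun x : Fin (k * a + m) => (x : ℕ) < a) := by
      intro x hx
      rw [Finset.mem_biUnion] at hx
      obtain ⟨f, hf, hx⟩ := hx
      rw [Finset.mem_image] at hx
      obtain ⟨i, hi, rfl⟩ := hx
      have hc := hP.1 f ((hmem f).1 hf)
      rw [Finset.mem_filter]
      exact ⟨Finset.mem_univ _, copy_low hk hT hF hc i (Finset.mem_filter.1 hi).2⟩
    have h3 : (Finset.univ.filter fun x : Fin (k * a + m) => (x : ℕ) < a).card ≤ a := by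
      have : (Finset.univ.filter fun x : Fin (k * a + m) => (x : ℕ) < a).card ≤
          (Finset.range a).card := by
        apply Finset.card_le_card_of_injOn (fun x : Fin (k * a + m) => (x : ℕ))
        · intro x hx
          simpa using hx
        · intro x _ y _ h
          exact Fin.ext h
      simpa using this
    have h4 := Finset.card_le_card h2
    omega
  have hsum := Set.ncard_add_ncard_compl (covered P)
  rw [Nat.card_eq_fintype_card, Fintype.card_fin] at hsum
  have h5 : (k + 1) * T * P'.card ≤ k * a + a := by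
    calc (k + 1) * T * P'.card = (k + 1) * (T * P'.card) := by ring
      _ ≤ (k + 1) * a := Nat.mul_le_mul_left (k + 1) hlow
      _ = k * a + a := by ring
  omega

/-- Vertices of the first intervals miss at most `a` vertices. -/
lemma bigR_deg_low {k a m : ℕ} {F : SimpleGraph (Fin m)} (v : Fin (k * a + m))
    (hv : (v : ℕ) < k * a) : k * a + m ≤ ((bigR k a m F).neighborSet v).ncard + a := by
  classical
  have hsub : {w : Fin (k * a + m) | prt k a w ≠ prt k a v} ⊆ (bigR k a m F).neighborSet v := by
    intro w hw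
    exact Or.inl (Ne.symm hw)
  have h1 := Set.ncard_le_ncard hsub (Set.toFinite _)
  have h2 := Set.ncard_add_ncard_compl {w : Fin (k * a + m) | prt k a w ≠ prt k a v}
  rw [Nat.card_eq_fintype_card, Fintype.card_fin] at h2
  have hq : prt k a v = (v : ℕ) / a := by unfold prt; rw [if_pos hv]
  have ha : 0 < a := by
    rcases Nat.eq_zero_or_pos a with h0 | h0
    · subst h0; simp at hv
    · exact h0
  have hqk : (v : ℕ) / a < k := Nat.div_lt_of_lt_mul (lt_of_lt_of_eq hv (mul_comm _ _))
  have h3 : ({w : Fin (k * a + m) | prt k a w ≠ prt k a v}ᶜ).ncard ≤ a := by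
    have hc : ({w : Fin (k * a + m) | prt k a w ≠ prt k a v}ᶜ).ncard ≤
        ((Finset.Ico ((v : ℕ) / a * a) (((v : ℕ) / a + 1) * a) : Finset ℕ) : Set ℕ).ncard := by
      apply Set.ncard_le_ncard_of_injOn (fun w : Fin (k * a + m) => (w : ℕ)) ?_ ?_
        (Finset.finite_toSet _)
      · intro w hw
        simp only [Set.mem_compl_iff, Set.mem_ofPred_eq, not_not] at hw
        rw [hq] at hw
        have hwk : (w : ℕ) < k * a := by
          by_contra hc
          unfold prt at hw
          rw [if_neg hc] at hw
          omega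
        have hw2 : (w : ℕ) / a = (v : ℕ) / a := by
          unfold prt at hw
          rwa [if_pos hwk] at hw
        rw [Finset.coe_Ico, Set.mem_Ico, ← hw2]
        exact ⟨Nat.div_mul_le_self _ _, by
          have := Nat.lt_div_mul_add (a := (w : ℕ)) (b := a) ha
          rw [Nat.add_mul, Nat.one_mul]
          exact this⟩
      · intro w _ w' _ h
        exact Fin.ext h
    rw [Set.ncard_coe_finset, Nat.card_Ico] at hc
    have : ((v : ℕ) / a + 1) * a - (v : ℕ) / a * a = a := by
      rw [Nat.add_mul, Nat.one_mul]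
      omega
    omega
  omega

/-- Vertices of the last interval. -/
lemma bigR_deg_high {k a m : ℕ} {F : SimpleGraph (Fin m)} (v : Fin (k * a + m))
    (i : Fin m) (hv : (v : ℕ) = k * a + i) :
    k * a + (F.neighborSet i).ncard ≤ ((bigR k a m F).neighborSet v).ncard := by
  classical
  let e1 : Fin (k * a) → Fin (k * a + m) := fun x => ⟨x, by omega⟩
  let e2 : Fin m → Fin (k * a + m) := fun x => ⟨k * a + x, by omega⟩
  have i1 : Function.Injective e1 := fun x y h => by
    have := congrArg Fin.val h
    exact Fin.ext this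
  have i2 : Function.Injective e2 := fun x y h => by
    have := congrArg Fin.val h
    simp only [e2] at this
    exact Fin.ext (by omega)
  have hd : Disjoint (Set.range e1) (e2 '' (F.neighborSet i)) := by
    rw [Set.disjoint_left]
    rintro _ ⟨x, rfl⟩ ⟨y, -, h⟩
    have := congrArg Fin.val h
    simp only [e1, e2] at this
    omega
  have hsub : Set.range e1 ∪ e2 '' (F.neighborSet i) ⊆ (bigR k a m F).neighborSet v := by
    rintro w (⟨x, rfl⟩ | ⟨y, hy, rfl⟩)
    · refine Or.inl ?_
      have h1 : prt k a v = k := by unfold prt; rw [if_neg (by omega)]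
      have h2 : prt k a (e1 x) < k := by
        unfold prt
        rw [if_pos x.isLt]
        exact Nat.div_lt_of_lt_mul (lt_of_lt_of_eq x.isLt (mul_comm _ _))
      omega
    · exact Or.inr ⟨i, y, hv, rfl, hy⟩
  have h := Set.ncard_le_ncard hsub (Set.toFinite _)
  rw [Set.ncard_union_eq hd (Set.toFinite _) (Set.toFinite _),
    Set.ncard_image_of_injective _ i2] at h
  have h3 : (Set.range e1).ncard = k * a := by
    rw [← Set.image_univ, Set.ncard_image_of_injective _ i1, Set.ncard_univ,
      Nat.card_eq_fintype_card, Fintype.card_fin]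
  omega

end Pool.Agent.H3.OT
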